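import Mathlib
import Pool.Agent.Lib.MP_17a4eb_an.Basic

set_option autoImplicit false

open scoped ENNReal

namespace Pool.Agent.Results.MP_17a4eb_an.LeftPseudoResolvent

universe u

/-- The left invertibility radius `r(a)` of `a`, as a point of `[0, ∞]`: the supremum of all
`α > 0` for which `a - z` is left invertible whenever `|z| < α`. -/
noncomputable def leftRadius {A : Type u} [NormedRing A] [NormedAlgebra ℂ A] (a : A) : ℝ≥0∞ :=
  sSup {α : ℝ≥0∞ | 0 < α ∧ ∀ z : ℂ, ENNReal.ofReal ‖z‖ < α →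
    ∃ b : A, b * (a - algebraMap ℂ A z) = 1}

/-- Below the left invertibility radius everything is left invertible. -/
private theorem left_of_lt {A : Type u} [NormedRing A] [NormedAlgebra ℂ A] (a : A) (z : ℂ)
    (hz : ENNReal.ofReal ‖z‖ < leftRadius a) : ∃ b : A, b * (a - algebraMap ℂ A z) = 1 := by
  obtain ⟨α, ⟨_, hα⟩, hz'⟩ := lt_sSup_iff.mp hz
  exact hα z hz'

/-- The left invertibility radius of a left invertible element is positive. -/
private theorem leftRadius_pos {A : Type u} [NormedRing A] [NormedAlgebra ℂ A] [CompleteSpace A]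
    (a : A) (h : ∃ b : A, b * a = 1) : 0 < leftRadius a := by
  obtain ⟨b, hb⟩ := h
  have hpos : (0 : ℝ) < 1 / (‖b‖ + 1) := by positivity
  have hmem : ENNReal.ofReal (1 / (‖b‖ + 1)) ∈ {α : ℝ≥0∞ | 0 < α ∧ ∀ z : ℂ,
      ENNReal.ofReal ‖z‖ < α → ∃ b : A, b * (a - algebraMap ℂ A z) = 1} := by
    refine ⟨ENNReal.ofReal_pos.mpr hpos, fun z hz => ?_⟩
    have hz1 : ‖z‖ < 1 / (‖b‖ + 1) := (ENNReal.ofReal_lt_ofReal_iff hpos).mp hz
    have hz2 : ‖z • b‖ < 1 := by
      rw [norm_smul]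
      have h1 : ‖z‖ * (‖b‖ + 1) < 1 := by
        have := mul_lt_mul_of_pos_right hz1 (show (0 : ℝ) < ‖b‖ + 1 by positivity)
        rwa [one_div, inv_mul_cancel₀ (by positivity)] at this
      nlinarith [norm_nonneg z, norm_nonneg b]
    obtain ⟨u, hu⟩ := isUnit_one_sub_of_norm_lt_one hz2
    refine ⟨(u⁻¹ : Aˣ) * b, ?_⟩
    have h2 : b * (a - algebraMap ℂ A z) = u := by
      rw [hu, mul_sub, hb, Algebra.smul_def, Algebra.commutes z b]
    rw [mul_assoc, h2, Units.inv_mul]
  exact lt_of_lt_of_le (ENNReal.ofReal_pos.mpr hpos) (le_sSup hmem)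

/-- Let `A` be a complex Banach algebra with identity and `a` a left invertible element, with left
invertibility radius `r(a)` (no normalisation).  For every compact subset `K` of the open disc
`|z| < r(a)` there are a radius `0 < r < r(a)` with `K` inside the open disc `|z| < r` and an
analytic function `g` on that whole disc with `g(z)(a - z) = 1` and
`g(z) - g(w) = (z - w) g(z) g(w)` for all `z`, `w` in the disc. -/
theorem result : ∀ (A : Type u) [NormedRing A] [NormedAlgebra ℂ A] [CompleteSpace A] (a : A),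
    (∃ b : A, b * a = 1) →
    ∀ K : Set ℂ, IsCompact K → (∀ z ∈ K, ENNReal.ofReal ‖z‖ < leftRadius a) →
      ∃ r : ℝ, 0 < r ∧ ENNReal.ofReal r < leftRadius a ∧ K ⊆ Metric.ball (0 : ℂ) r ∧
        ∃ g : ℂ → A, AnalyticOnNhd ℂ g (Metric.ball (0 : ℂ) r) ∧
          (∀ z ∈ Metric.ball (0 : ℂ) r, g z * (a - algebraMap ℂ A z) = 1) ∧
          (∀ z ∈ Metric.ball (0 : ℂ) r, ∀ w ∈ Metric.ball (0 : ℂ) r,
            g z - g w = (z - w) • (g z * g w)) := by
  intro A _ _ _ a ha K hK hK1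
  -- a radius `r < r(a)` with `K` inside the open disc of radius `r`
  obtain ⟨r, hr0, hr1, hKr⟩ : ∃ r : ℝ, 0 < r ∧ ENNReal.ofReal r < leftRadius a ∧
      K ⊆ Metric.ball (0 : ℂ) r := by
    obtain ⟨s, hs0, hs1, hsK⟩ : ∃ s : ℝ, 0 ≤ s ∧ ENNReal.ofReal s < leftRadius a ∧
        ∀ z ∈ K, ‖z‖ ≤ s := by
      rcases K.eq_empty_or_nonempty with rfl | hne
      · exact ⟨0, le_refl _, by simpa using leftRadius_pos a ha, by simp⟩
      · obtain ⟨z, hz, hmax⟩ := hK.exists_isMaxOn hne continuous_norm.continuousOn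
        exact ⟨‖z‖, norm_nonneg _, hK1 z hz, fun w hw => hmax hw⟩
    obtain ⟨q, hq1, hq2⟩ := ENNReal.lt_iff_exists_nnreal_btwn.mp hs1
    have hsq : s < (q : ℝ) := by
      rw [← ENNReal.ofReal_coe_nnreal] at hq1
      by_contra hcon
      push Not at hcon
      exact absurd hq1 (not_lt.mpr (ENNReal.ofReal_le_ofReal hcon))
    refine ⟨(q : ℝ), lt_of_le_of_lt hs0 hsq, by rwa [ENNReal.ofReal_coe_nnreal], ?_⟩
    intro w hw
    rw [mem_ball_zero_iff]
    exact lt_of_le_of_lt (hsK w hw) hsq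
  obtain ⟨b, hba, hb⟩ := Pool.Agent.Lib.MP17a4eb.exists_good_left_inverse (r := r) hr0.le a
    (fun l hl => left_of_lt a l (lt_of_le_of_lt (ENNReal.ofReal_le_ofReal hl) hr1))
  refine ⟨r, hr0, hr1, hKr, fun z => Ring.inverse (1 - algebraMap ℂ A z * b) * b, ?_, ?_, ?_⟩
  · have hd : DifferentiableOn ℂ (fun z : ℂ => Ring.inverse (1 - algebraMap ℂ A z * b) * b)
        (Metric.ball (0 : ℂ) r) := by
      intro z hz
      have hz' : ‖z‖ ≤ r := by rw [mem_ball_zero_iff] at hz; exact hz.le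
      have h1 : DifferentiableAt ℂ (fun z : ℂ => 1 - algebraMap ℂ A z * b) z := by
        have h2 : DifferentiableAt ℂ (fun z : ℂ => algebraMap ℂ A z) z :=
          (algebraMapCLM ℂ A).differentiableAt
        exact (differentiableAt_const _).sub (h2.mul_const b)
      have h3 : DifferentiableAt ℂ (fun z : ℂ => Ring.inverse (1 - algebraMap ℂ A z * b)) z :=
        DifferentiableAt.comp (g := Ring.inverse) z (differentiableAt_inverse (𝕜 := ℂ) (hb z hz')) h1
      exact (h3.mul_const b).differentiableWithinAt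
    exact hd.analyticOnNhd Metric.isOpen_ball
  · intro z hz
    have hz' : ‖z‖ ≤ r := by rw [mem_ball_zero_iff] at hz; exact hz.le
    have h1 : b * (a - algebraMap ℂ A z) = 1 - algebraMap ℂ A z * b := by
      rw [mul_sub, hba, Algebra.commutes z b]
    show Ring.inverse (1 - algebraMap ℂ A z * b) * b * (a - algebraMap ℂ A z) = 1
    rw [mul_assoc, h1]
    exact Ring.inverse_mul_cancel _ (hb z hz')
  · intro z hz w hw
    have hz' : ‖z‖ ≤ r := by rw [mem_ball_zero_iff] at hz; exact hz.le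
    have hw' : ‖w‖ ≤ r := by rw [mem_ball_zero_iff] at hw; exact hw.le
    show Ring.inverse (1 - algebraMap ℂ A z * b) * b - Ring.inverse (1 - algebraMap ℂ A w * b) * b
      = (z - w) • (Ring.inverse (1 - algebraMap ℂ A z * b) * b *
        (Ring.inverse (1 - algebraMap ℂ A w * b) * b))
    obtain ⟨u, hu⟩ := hb z hz'
    obtain ⟨v, hv⟩ := hb w hw'
    rw [← hu, ← hv, Ring.inverse_unit, Ring.inverse_unit]
    -- v and b commute
    have hvb : (v : A) * b = b * v := by
      rw [hv, sub_mul, mul_sub, one_mul, mul_one, ← mul_assoc b, ← Algebra.commutes w b]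
    have hvb' : ((v⁻¹ : Aˣ) : A) * b = b * ((v⁻¹ : Aˣ) : A) := by
      calc ((v⁻¹ : Aˣ) : A) * b = ((v⁻¹ : Aˣ) : A) * (b * v) * ((v⁻¹ : Aˣ) : A) := by
            rw [mul_assoc, mul_assoc, Units.mul_inv, mul_one]
        _ = b * ((v⁻¹ : Aˣ) : A) := by
            rw [← hvb, ← mul_assoc, Units.inv_mul, one_mul]
    have hub : (z - w) • b = (v : A) - u := by
      rw [hu, hv, Algebra.smul_def, map_sub, sub_mul]; abel
    calc ((u⁻¹ : Aˣ) : A) * b - ((v⁻¹ : Aˣ) : A) * b
        = ((u⁻¹ : Aˣ) : A) * ((v : A) - u) * ((v⁻¹ : Aˣ) : A) * b := by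
          rw [mul_sub, sub_mul, Units.inv_mul, one_mul, mul_assoc ((u⁻¹ : Aˣ) : A), Units.mul_inv,
            mul_one, sub_mul]
      _ = ((u⁻¹ : Aˣ) : A) * ((z - w) • b) * (((v⁻¹ : Aˣ) : A) * b) := by
          rw [hub, mul_assoc]
      _ = (z - w) • (((u⁻¹ : Aˣ) : A) * b * (((v⁻¹ : Aˣ) : A) * b)) := by
          rw [mul_smul_comm, smul_mul_assoc]

end Pool.Agent.Results.MP_17a4eb_an.LeftPseudoResolvent
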